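import Pool.Agent.Lib.MP_24b5ff_co.TQLower

/-!
# The fractional triangle decomposition threshold is `3/4`

Every graph on `n` vertices with minimum degree at least `3n/4` has a fractional triangle
decomposition, and the fractional `K₃`-decomposition threshold is exactly `3/4`.
-/

namespace Pool.Agent.Results.MP_24b5ff_co.ThreeQuarters

open Finset Pool.Agent.Lib.MP_24b5ff_co.TQ

universe u

/-- `ω` is a fractional `K₃`-decomposition of `G`: it gives every triangle of `G` a value in
`[0,1]` such that for every edge `xy` the values of the triangles that contain both `x` and `y`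
sum to `1`. -/
def IsFractionalTriangleDecomposition {V : Type u} [Fintype V] [DecidableEq V]
    (G : SimpleGraph V) [DecidableRel G.Adj] (ω : Finset V → ℝ) : Prop :=
  (∀ T ∈ G.cliqueFinset 3, 0 ≤ ω T ∧ ω T ≤ 1) ∧
    ∀ x y, G.Adj x y → ∑ T ∈ G.cliqueFinset 3 with x ∈ T ∧ y ∈ T, ω T = 1

/-- `G` is `K₃`-divisible: the number of edges is divisible by `3` and all degrees are even. -/
def IsK3Divisible {V : Type u} [Fintype V] [DecidableEq V]
    (G : SimpleGraph V) [DecidableRel G.Adj] : Prop :=
  3 ∣ G.edgeFinset.card ∧ ∀ v, Even (G.degree v)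

/-- `δ` is admissible: for some `n₀`, every `K₃`-divisible graph `G` on `n ≥ n₀` vertices with
minimum degree at least `δ n` has a fractional `K₃`-decomposition. -/
def Admissible (δ : ℝ) : Prop :=
  ∃ n₀ : ℕ, ∀ (V : Type) [Fintype V] [DecidableEq V] (G : SimpleGraph V) [DecidableRel G.Adj],
    n₀ ≤ Fintype.card V → IsK3Divisible G → δ * (Fintype.card V : ℝ) ≤ (G.minDegree : ℝ) →
      ∃ ω : Finset V → ℝ, IsFractionalTriangleDecomposition G ω

/-- The fractional `K₃`-decomposition threshold: the infimum of the admissible `δ ∈ [0,1]`. -/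
noncomputable def fractionalThreshold : ℝ := sInf {δ : ℝ | 0 ≤ δ ∧ δ ≤ 1 ∧ Admissible δ}

/-- Every graph with minimum degree at least `3n/4` has a fractional triangle decomposition. -/
theorem exists_of_degree {V : Type u} [Fintype V] [DecidableEq V] (G : SimpleGraph V)
    [DecidableRel G.Adj] (hG : ∀ v, 3 * Fintype.card V ≤ 4 * G.degree v) :
    ∃ ω : Finset V → ℝ, IsFractionalTriangleDecomposition G ω := by
  obtain ⟨ω, h1, h2⟩ := exists_decomposition G (fun w hw htri => sum_Wt_nonneg G hG w hw htri)
  exact ⟨ω, fun T _ => h1 T, h2⟩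

theorem blowup_divisible {m : ℕ} (hm : m % 6 = 3) : IsK3Divisible (blowup m) := by
  obtain ⟨j, hj⟩ : ∃ j, m = 6 * j + 3 := ⟨m / 6, by omega⟩
  refine ⟨?_, fun v => ?_⟩
  · have h := (blowup m).sum_degrees_eq_twice_card_edges
    simp only [blowup_degree] at h
    rw [Finset.sum_const, Finset.card_univ, Fintype.card_prod, Fintype.card_fin,
      Fintype.card_fin, smul_eq_mul] at h
    have h2 : (blowup m).edgeFinset.card = 3 * ((2 * j + 1) * (2 * (3 * m - 1))) := by
      have h3 : 4 * m * (3 * m - 1) = 2 * (3 * ((2 * j + 1) * (2 * (3 * m - 1)))) := by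
        have h4 : 4 * m = 12 * (2 * j + 1) := by omega
        rw [h4]
        ring
      omega
    rw [h2]
    exact Dvd.intro _ rfl
  · rw [blowup_degree, hj]
    exact ⟨9 * j + 4, by omega⟩

/-- **Main theorem.**
1. The fractional `K₃`-decomposition threshold equals `3/4`.
2. Every finite graph on `n` vertices with minimum degree at least `3n/4` has a fractional
   `K₃`-decomposition (for all `n`, without any divisibility assumption).
3. For every `m ≡ 3 (mod 6)` there is a `K₃`-divisible graph on `n = 4m` vertices, regular of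
   degree `3n/4 - 1`, without a fractional `K₃`-decomposition. -/
theorem result :
    fractionalThreshold = 3 / 4 ∧
    (∀ (V : Type u) [Fintype V] [DecidableEq V] (G : SimpleGraph V) [DecidableRel G.Adj],
      (∀ v, (3 / 4 : ℝ) * (Fintype.card V : ℝ) ≤ (G.degree v : ℝ)) →
        ∃ ω : Finset V → ℝ, IsFractionalTriangleDecomposition G ω) ∧
    (∀ m : ℕ, m % 6 = 3 → ∃ (V : Type) (_ : Fintype V) (_ : DecidableEq V) (G : SimpleGraph V)
      (_ : DecidableRel G.Adj), Fintype.card V = 4 * m ∧ IsK3Divisible G ∧
        (∀ v, G.degree v = 3 * m - 1) ∧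
        ¬ ∃ ω : Finset V → ℝ, IsFractionalTriangleDecomposition G ω) := by
  have hpos : ∀ (V : Type u) [Fintype V] [DecidableEq V] (G : SimpleGraph V) [DecidableRel G.Adj],
      (∀ v, (3 / 4 : ℝ) * (Fintype.card V : ℝ) ≤ (G.degree v : ℝ)) →
        ∃ ω : Finset V → ℝ, IsFractionalTriangleDecomposition G ω := by
    intro V _ _ G _ hG
    refine exists_of_degree G fun v => ?_
    have h := hG v
    have h2 : (3 * Fintype.card V : ℝ) ≤ 4 * (G.degree v : ℝ) := by linarith
    exact_mod_cast h2
  have hneg : ∀ m : ℕ, 0 < m → ¬ ∃ ω : Finset (Fin 4 × Fin m) → ℝ,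
      IsFractionalTriangleDecomposition (blowup m) ω := by
    rintro m hm ⟨ω, h1, h2⟩
    exact blowup_no_decomposition hm (fun T hT => (h1 T hT).1) h2
  refine ⟨?_, hpos, fun m hm => ?_⟩
  · have hleast : IsLeast {δ : ℝ | 0 ≤ δ ∧ δ ≤ 1 ∧ Admissible δ} (3 / 4) := by
      refine ⟨⟨by norm_num, by norm_num, 0, ?_⟩, ?_⟩
      · intro V _ _ G _ _ _ hδ
        refine exists_of_degree G fun v => ?_
        have h1 : (G.minDegree : ℝ) ≤ G.degree v := by exact_mod_cast G.minDegree_le_degree v
        have h2 : (3 * Fintype.card V : ℝ) ≤ 4 * (G.degree v : ℝ) := by linarith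
        exact_mod_cast h2
      · rintro δ ⟨h0, _, n₀, hn₀⟩
        by_contra hcon
        push Not at hcon
        obtain ⟨j, hj⟩ := exists_nat_gt (1 / (3 - 4 * δ))
        have hd : 0 < 3 - 4 * δ := by linarith
        rw [div_lt_iff₀ hd] at hj
        set m := 6 * (j + n₀) + 3 with hm
        have hm6 : m % 6 = 3 := by omega
        refine hneg m (by omega) (hn₀ (Fin 4 × Fin m) (blowup m) ?_ (blowup_divisible hm6) ?_)
        · rw [Fintype.card_prod, Fintype.card_fin, Fintype.card_fin]
          omega
        · have : Nonempty (Fin 4 × Fin m) := ⟨(0, ⟨0, by omega⟩)⟩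
          obtain ⟨v, hv⟩ := (blowup m).exists_minimal_degree_vertex
          rw [hv, blowup_degree, Fintype.card_prod, Fintype.card_fin, Fintype.card_fin]
          have h3 : ((3 * m - 1 : ℕ) : ℝ) = 3 * (m : ℝ) - 1 := by
            have : 1 ≤ 3 * m := by omega
            push_cast [Nat.cast_sub this]
            ring
          rw [h3]
          have h4 : (j : ℝ) ≤ m := by
            have : j ≤ m := by omega
            exact_mod_cast this
          have h5 := mul_le_mul_of_nonneg_right h4 hd.le
          push_cast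
          linarith
    exact hleast.csInf_eq
  · exact ⟨Fin 4 × Fin m, inferInstance, inferInstance, blowup m, inferInstance,
      by rw [Fintype.card_prod, Fintype.card_fin, Fintype.card_fin], blowup_divisible hm,
      blowup_degree, hneg m (by omega)⟩

end Pool.Agent.Results.MP_24b5ff_co.ThreeQuarters
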